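import Mathlib

open Filter Topology Set

namespace Pool.Agent.Results.MP_b0da28_lc.ClosedNotReducible

/-! ### The countable base structure -/

/-- the triple coded by a natural number -/
def tri (n : ℕ) : List ℕ × ℕ × List ℕ := Denumerable.ofNat (List ℕ × ℕ × List ℕ) n

/-- the code of a triple -/
def cod (t : List ℕ) (N : ℕ) (r : List ℕ) : ℕ := Encodable.encode (t, N, r)

lemma tri_cod (t : List ℕ) (N : ℕ) (r : List ℕ) : tri (cod t N r) = (t, N, r) := by
  simp [tri, cod]

/-- the finite sequence `t`, followed by `c + 1` and by zeros -/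
def disp (t : List ℕ) (c : ℕ) : ℕ → ℕ := fun n =>
  if n < t.length then t.getD n 0 else if n = t.length then c + 1 else 0

lemma disp_lt {t : List ℕ} {c n : ℕ} (h : n < t.length) : disp t c n = t.getD n 0 := by
  simp [disp, h]

lemma disp_len (t : List ℕ) (c : ℕ) : disp t c t.length = c + 1 := by
  simp [disp]

lemma disp_gt {t : List ℕ} {c n : ℕ} (h : t.length < n) : disp t c n = 0 := by
  have h1 : ¬ n < t.length := by omega
  have h2 : n ≠ t.length := by omega
  simp [disp, h1, h2]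

lemma disp_inj {t t' : List ℕ} {c c' : ℕ} (h : disp t c = disp t' c') : c = c' := by
  rcases lt_trichotomy t.length t'.length with hl | hl | hl
  · have h1 := congrFun h t'.length
    rw [disp_len, disp_gt hl] at h1
    omega
  · have h1 := congrFun h t.length
    rw [disp_len, hl, disp_len] at h1
    omega
  · have h1 := congrFun h t.length
    rw [disp_len, disp_gt hl] at h1
    omega

/-- the finite part of the two codings -/
def pre (i : Bool) (n : ℕ) : List ℕ :=
  if i then (tri n).2.1 :: (tri n).2.2 else (tri n).1.take (tri n).2.1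

/-- the two codings of natural numbers by elements of Baire space -/
def a (i : Bool) (n : ℕ) : ℕ → ℕ := disp (pre i n) n

lemma a_inj {i : Bool} {m n : ℕ} (h : a i m = a i n) : m = n := disp_inj h

lemma a_len (i : Bool) (n : ℕ) : a i n (pre i n).length = n + 1 := disp_len _ _

lemma exists_pre (i : Bool) (ξ : ℕ → ℕ) (L : ℕ) (hL : 1 ≤ L) :
    ∃ z : ℕ, pre i z = (List.range L).map ξ := by
  cases i
  · refine ⟨cod ((List.range L).map ξ) L [], ?_⟩
    simp [pre, tri_cod, List.take_of_length_le]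
  · obtain ⟨M, rfl⟩ : ∃ M, L = M + 1 := ⟨L - 1, by omega⟩
    refine ⟨cod [] (ξ 0) ((List.range M).map (fun j => ξ (j + 1))), ?_⟩
    simp [pre, tri_cod, List.range_succ_eq_map, Function.comp_def]

lemma a_of_pre {i : Bool} {z L : ℕ} {ξ : ℕ → ℕ} (h : pre i z = (List.range L).map ξ) :
    ∀ n < L, a i z n = ξ n := by
  intro n hn
  rw [a, disp_lt (by rw [h]; simpa using hn), h]
  simp [List.getD_eq_getElem?_getD, hn]

lemma a_of_pre_gt {i : Bool} {z L : ℕ} {ξ : ℕ → ℕ} (h : pre i z = (List.range L).map ξ) :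
    ∀ n > L, a i z n = 0 := by
  intro n hn
  rw [a, disp_gt (by rw [h]; simpa using hn)]

lemma a_dense (i : Bool) (ξ : ℕ → ℕ) (L : ℕ) : ∃ z : ℕ, ∀ n < L, a i z n = ξ n := by
  obtain ⟨z, hz⟩ := exists_pre i ξ (L + 1) (by omega)
  exact ⟨z, fun n hn => a_of_pre hz n (by omega)⟩

/-- Columns of a coding can be prescribed. -/
lemma exists_columns (i : Bool) (s : ℕ → ℕ) (K : ℕ) :
    ∃ ζ : ℕ, ∀ j < K, ∀ n, a i ζ (Nat.pair j n) = a i (s j) n := by
  obtain ⟨J, hJ⟩ : ∃ J : ℕ, ∀ j < K, (pre i (s j)).length < J := by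
    refine ⟨((Finset.range K).sup fun j => (pre i (s j)).length) + 1, fun j hj => ?_⟩
    have := Finset.le_sup (f := fun j => (pre i (s j)).length) (Finset.mem_range.2 hj)
    omega
  have hL : 1 ≤ Nat.pair K (J + 1) := by
    have := Nat.right_le_pair K (J + 1)
    omega
  obtain ⟨ζ, hζ⟩ := exists_pre i
    (fun m => if (Nat.unpair m).1 < K then a i (s (Nat.unpair m).1) (Nat.unpair m).2 else 0) _ hL
  refine ⟨ζ, fun j hj n => ?_⟩
  rcases lt_trichotomy (Nat.pair j n) (Nat.pair K (J + 1)) with h | h | h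
  · rw [a_of_pre hζ _ h]
    simp [hj]
  · rw [Nat.pair_eq_pair] at h
    omega
  · rw [a_of_pre_gt hζ _ h]
    have hn : J < n := by
      by_contra hcon
      have h1 : Nat.pair j n < Nat.pair K n := Nat.pair_lt_pair_left n hj
      have h2 : Nat.pair K n < Nat.pair K (J + 1) := Nat.pair_lt_pair_right K (by omega)
      omega
    have := hJ j hj
    rw [a, disp_gt (by omega)]

/-- Continuity with values in a discrete space, at a point of Baire space. -/
lemma exists_modulus {φ : (ℕ → ℕ) → ℕ} (hφ : Continuous φ) (ξ : ℕ → ℕ) :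
    ∃ k, ∀ ξ' : ℕ → ℕ, (∀ j < k, ξ' j = ξ j) → φ ξ' = φ ξ := by
  have hO : IsOpen (φ ⁻¹' {φ ξ}) := (isOpen_discrete _).preimage hφ
  obtain ⟨I, u, hu, hsub⟩ := (isOpen_pi_iff.1 hO) ξ rfl
  refine ⟨I.sup id + 1, fun ξ' hξ' => ?_⟩
  apply hsub
  intro j hj
  have hj' : j ∈ I := hj
  have := Finset.le_sup (f := id) hj'
  simp only [id] at this
  rw [hξ' j (by omega)]
  exact (hu j hj').2

/-- There is no nonconstant common continuous information. -/
lemma base_conn {φ ψ : (ℕ → ℕ) → ℕ} (hφ : Continuous φ) (hψ : Continuous ψ)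
    (h : ∀ n, φ (a false n) = ψ (a true n)) (z w : ℕ) : φ (a false z) = φ (a false w) := by
  obtain ⟨k, hk⟩ := exists_modulus hφ (a false z)
  obtain ⟨k', hk'⟩ := exists_modulus hφ (a false w)
  set N := max k k' with hN
  set y := cod ((List.range k').map (a false w)) N [] with hy
  have hy1 : φ (a false y) = φ (a false w) := by
    apply hk'
    have : pre false y = (List.range k').map (a false w) := by
      rw [hy]
      simp only [pre, tri_cod]
      simp
      omega
    exact a_of_pre this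
  obtain ⟨l, hl⟩ := exists_modulus hψ (a true y)
  set u := cod ((List.range k).map (a false z)) N ((y + 1) :: List.replicate l 0) with hu
  have hu1 : φ (a false u) = φ (a false z) := by
    apply hk
    have : pre false u = (List.range k).map (a false z) := by
      rw [hu]
      simp only [pre, tri_cod]
      simp
      omega
    exact a_of_pre this
  have hpy : pre true y = [N] := by
    rw [hy]
    simp [pre, tri_cod]
  have hpu : pre true u = N :: (y + 1) :: List.replicate l 0 := by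
    rw [hu]
    simp [pre, tri_cod]
  have hu2 : ψ (a true u) = ψ (a true y) := by
    apply hl
    intro j hj
    have hlen : j < (pre true u).length := by
      rw [hpu]
      simp
      omega
    rw [a, disp_lt hlen, hpu, a, hpy]
    rcases j with _ | _ | j
    · simp [disp]
    · simp [disp]
    · have hjl : j < l := by omega
      simp [disp, List.getD_eq_getElem?_getD, List.getElem?_replicate, hjl]
  rw [← hu1, h u, hu2, ← h y, hy1]

/-- Product form of the previous lemma. -/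
lemma prod_conn {I : Type*} {F₁ F₂ : (I → (ℕ → ℕ)) → ℕ} (h₁ : Continuous F₁)
    (h₂ : Continuous F₂)
    (h : ∀ p : I → ℕ, F₁ (fun i => a false (p i)) = F₂ (fun i => a true (p i)))
    (p q : I → ℕ) : F₁ (fun i => a false (p i)) = F₁ (fun i => a false (q i)) := by
  classical
  -- one coordinate
  have hone : ∀ (p : I → ℕ) (i : I) (ζ : ℕ),
      F₁ (fun j => a false (Function.update p i ζ j)) = F₁ (fun j => a false (p j)) := by
    intro p i ζ
    have hup : ∀ (b : Bool) (n : ℕ), (fun j => a b (Function.update p i n j)) =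
        Function.update (fun j => a b (p j)) i (a b n) := by
      intro b n
      funext j
      by_cases hj : j = i
      · subst hj; simp
      · simp [hj]
    have hc₁ : Continuous (fun ξ : ℕ → ℕ => F₁ (Function.update (fun j => a false (p j)) i ξ)) :=
      h₁.comp (continuous_const.update i continuous_id)
    have hc₂ : Continuous (fun ξ : ℕ → ℕ => F₂ (Function.update (fun j => a true (p j)) i ξ)) :=
      h₂.comp (continuous_const.update i continuous_id)
    have key := base_conn hc₁ hc₂ (fun n => by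
      rw [← hup false n, ← hup true n]
      exact h _) ζ (p i)
    rw [← hup false ζ, ← hup false (p i), Function.update_eq_self] at key
    exact key
  have hfin : ∀ (J : Finset I) (p q : I → ℕ),
      F₁ (fun j => a false (J.piecewise q p j)) = F₁ (fun j => a false (p j)) := by
    intro J
    induction J using Finset.induction_on with
    | empty => intro p q; simp
    | insert i J hi ih =>
      intro p q
      rw [Finset.piecewise_insert]
      rw [hone]
      exact ih p q
  have hcont : Continuous (fun p : I → ℕ => F₁ (fun i => a false (p i))) := by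
    apply h₁.comp
    rw [continuous_pi_iff]
    intro i
    exact (continuous_of_discreteTopology (f := a false)).comp (continuous_apply i)
  have hO : IsOpen ((fun p : I → ℕ => F₁ (fun i => a false (p i))) ⁻¹'
      {F₁ (fun i => a false (q i))}) := (isOpen_discrete _).preimage hcont
  obtain ⟨J, u, hu, hsub⟩ := (isOpen_pi_iff.1 hO) q rfl
  have h3 : J.piecewise q p ∈ (fun p : I → ℕ => F₁ (fun i => a false (p i))) ⁻¹'
      {F₁ (fun i => a false (q i))} := by
    apply hsub
    intro j hj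
    have hj' : j ∈ J := hj
    rw [Finset.piecewise_eq_of_mem _ _ _ hj']
    exact (hu j hj').2
  rw [← hfin J p q]
  exact h3

lemma eventually_eq_le {α : Type*} {F : Filter α} {u : α → ℕ → ℕ} {ξ : ℕ → ℕ}
    (h : Tendsto u F (𝓝 ξ)) (M : ℕ) : ∀ᶠ x in F, ∀ n ≤ M, u x n = ξ n := by
  have h1 : ∀ n, ∀ᶠ x in F, u x n = ξ n := by
    intro n
    have := tendsto_pi_nhds.1 h n
    rw [nhds_discrete, tendsto_pure] at this
    exact this
  have h2 : ∀ᶠ x in F, ∀ n ∈ Finset.range (M + 1), u x n = ξ n :=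
    (Filter.eventually_all_finset _).2 fun n _ => h1 n
  filter_upwards [h2] with x hx n hn
  exact hx n (Finset.mem_range.2 (by omega))

lemma base_sep {n m : ℕ} {ξ θ : ℕ → ℕ} (hn : a true n 0 = θ 0)
    (hn' : ∀ j ≤ θ 0, a false n j = ξ j)
    (hm : a true m 0 = θ 0) (hm' : ∀ j ≤ θ 0, a false m j = ξ j) : n = m := by
  have key : ∀ k, a true k 0 = θ 0 → (pre false k).length ≤ θ 0 := by
    intro k hk
    have h1 : a true k 0 = (tri k).2.1 := by
      simp [a, pre, disp]
    have h2 : (pre false k).length ≤ (tri k).2.1 := by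
      simp [pre]
    omega
  have ln := key n hn
  have lm := key m hm
  rcases lt_trichotomy (pre false n).length (pre false m).length with hl | hl | hl
  · have h1 := hm' _ lm
    have h2 := hn' _ lm
    rw [a_len] at h1
    rw [a, disp_gt hl] at h2
    omega
  · have h1 := hn' _ ln
    have h2 := hm' _ lm
    rw [a_len] at h1 h2
    rw [hl] at h1
    omega
  · have h1 := hn' _ ln
    have h2 := hm' _ ln
    rw [a_len] at h1
    rw [a, disp_gt hl] at h2
    omega

/-- Joint closedness of the base structure. -/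
lemma base_proper {α : Type*} (𝒰 : Ultrafilter α) (u : α → ℕ) {ξ θ : ℕ → ℕ}
    (h₁ : Tendsto (fun x => a false (u x)) 𝒰 (𝓝 ξ))
    (h₂ : Tendsto (fun x => a true (u x)) 𝒰 (𝓝 θ)) :
    ∃ s : ℕ, ∀ᶠ x in (𝒰 : Filter α), u x = s := by
  have e := (eventually_eq_le h₂ 0).and (eventually_eq_le h₁ (θ 0))
  obtain ⟨x₀, hx₀⟩ := e.exists
  refine ⟨u x₀, ?_⟩
  filter_upwards [e] with x hx
  exact base_sep (hx.1 0 le_rfl) hx.2 (hx₀.1 0 le_rfl) hx₀.2

/-! ### The second level: plain and special elements -/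

/-- plain elements (natural numbers) and special elements (sequences) -/
abbrev F0 : Type := ℕ ⊕ (ℕ → ℕ)

/-- the two displays of an element -/
def P (i : Bool) : F0 → (ℕ → ℕ)
  | Sum.inl z => a i z
  | Sum.inr σ => fun m => a i (σ (Nat.unpair m).1) (Nat.unpair m).2

lemma P_inr (i : Bool) (σ : ℕ → ℕ) (j n : ℕ) : P i (Sum.inr σ) (Nat.pair j n) = a i (σ j) n := by
  simp [P]

lemma P_inr_zero (i : Bool) (σ : ℕ → ℕ) : P i (Sum.inr σ) 0 = a i (σ 0) 0 := by
  simp [P, Nat.unpair_zero]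

lemma P_inj (i : Bool) : Function.Injective (P i) := by
  have hmix : ∀ (z : ℕ) (σ : ℕ → ℕ), P i (Sum.inl z) ≠ P i (Sum.inr σ) := by
    intro z σ h
    set j := (pre i z).length + 1 with hj
    have h1 := congrFun h (Nat.pair j (pre i (σ j)).length)
    rw [P_inr, a_len] at h1
    have h2 : (pre i z).length < Nat.pair j (pre i (σ j)).length := by
      have := Nat.left_le_pair j (pre i (σ j)).length
      omega
    have h3 : P i (Sum.inl z) (Nat.pair j (pre i (σ j)).length) = 0 := disp_gt h2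
    omega
  intro e e' h
  rcases e with z | σ <;> rcases e' with z' | σ'
  · have : z = z' := a_inj (i := i) h
    rw [this]
  · exact absurd h (hmix z σ')
  · exact absurd h.symm (hmix z' σ)
  · have : σ = σ' := by
      funext j
      apply a_inj (i := i)
      funext n
      rw [← P_inr, ← P_inr, h]
    rw [this]

lemma P_cont (i : Bool) : Continuous (P i) := by
  rw [continuous_sum_dom]
  constructor
  · exact continuous_of_discreteTopology
  · rw [continuous_pi_iff]
    intro m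
    have h1 : Continuous (fun n : ℕ => a i n (Nat.unpair m).2) := continuous_of_discreteTopology
    exact h1.comp (continuous_apply (Nat.unpair m).1)

/-- Joint closedness at the second level. -/
lemma F0_proper {α : Type*} (𝒰 : Ultrafilter α) (u : α → F0) {ξ θ : ℕ → ℕ}
    (h₁ : Tendsto (fun x => P false (u x)) 𝒰 (𝓝 ξ))
    (h₂ : Tendsto (fun x => P true (u x)) 𝒰 (𝓝 θ)) :
    ∃ e : F0, Tendsto u 𝒰 (𝓝 e) := by
  have hcase : (∀ᶠ x in (𝒰 : Filter α), ∃ z, u x = Sum.inl z) ∨
      (∀ᶠ x in (𝒰 : Filter α), ∃ σ, u x = Sum.inr σ) := by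
    rw [← Ultrafilter.eventually_or]
    refine Filter.Eventually.of_forall fun x => ?_
    rcases u x with z | σ
    · exact Or.inl ⟨z, rfl⟩
    · exact Or.inr ⟨σ, rfl⟩
  rcases hcase with hc | hc
  · let v : α → ℕ := fun x => Sum.elim id (fun _ => 0) (u x)
    have hv : ∀ᶠ x in (𝒰 : Filter α), u x = Sum.inl (v x) := by
      filter_upwards [hc] with x ⟨z, hz⟩
      simp [v, hz]
    have g₁ : Tendsto (fun x => a false (v x)) 𝒰 (𝓝 ξ) := by
      refine h₁.congr' ?_
      filter_upwards [hv] with x hx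
      rw [hx]
      rfl
    have g₂ : Tendsto (fun x => a true (v x)) 𝒰 (𝓝 θ) := by
      refine h₂.congr' ?_
      filter_upwards [hv] with x hx
      rw [hx]
      rfl
    obtain ⟨s, hs⟩ := base_proper 𝒰 v g₁ g₂
    refine ⟨Sum.inl s, ?_⟩
    refine tendsto_nhds_of_eventually_eq ?_
    filter_upwards [hv, hs] with x hx hx'
    rw [hx, hx']
  · let v : α → (ℕ → ℕ) := fun x => Sum.elim (fun _ => 0) id (u x)
    have hv : ∀ᶠ x in (𝒰 : Filter α), u x = Sum.inr (v x) := by
      filter_upwards [hc] with x ⟨z, hz⟩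
      simp [v, hz]
    have g : ∀ (i : Bool) (ζ : ℕ → ℕ), Tendsto (fun x => P i (u x)) 𝒰 (𝓝 ζ) → ∀ j,
        Tendsto (fun x => a i (v x j)) 𝒰 (𝓝 (fun n => ζ (Nat.pair j n))) := by
      intro i ζ h j
      rw [tendsto_pi_nhds]
      intro n
      have h1 := tendsto_pi_nhds.1 h (Nat.pair j n)
      refine h1.congr' ?_
      filter_upwards [hv] with x hx
      rw [hx, P_inr]
    have hs : ∀ j, ∃ s : ℕ, ∀ᶠ x in (𝒰 : Filter α), v x j = s := fun j =>
      base_proper 𝒰 (fun x => v x j) (g false ξ h₁ j) (g true θ h₂ j)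
    choose s hs using hs
    refine ⟨Sum.inr s, ?_⟩
    have hvs : Tendsto v 𝒰 (𝓝 s) := by
      rw [tendsto_pi_nhds]
      intro j
      exact tendsto_nhds_of_eventually_eq (hs j)
    have h1 : Tendsto (fun x => (Sum.inr (v x) : F0)) 𝒰 (𝓝 (Sum.inr s)) :=
      (continuous_inr.tendsto s).comp hvs
    refine h1.congr' ?_
    filter_upwards [hv] with x hx
    rw [hx]

/-- agreement of two elements up to precision `K` -/
def close (K : ℕ) : F0 → F0 → Prop
  | Sum.inl z, Sum.inl z' => z = z'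
  | Sum.inr σ, Sum.inr σ' => ∀ j < K, σ j = σ' j
  | _, _ => False

lemma close_refl (K : ℕ) (e : F0) : close K e e := by
  rcases e with z | σ
  · exact rfl
  · intro j _; rfl

lemma close_trans {K : ℕ} {e e' e'' : F0} (h : close K e e') (h' : close K e' e'') :
    close K e e'' := by
  rcases e with z | σ <;> rcases e' with z' | σ' <;> rcases e'' with z'' | σ'' <;>
    simp only [close] at *
  · rw [h, h']
  · intro j hj
    rw [h j hj, h' j hj]

lemma close_mono {K K' : ℕ} (hK : K ≤ K') {e e' : F0} (h : close K' e e') : close K e e' := by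
  rcases e with z | σ <;> rcases e' with z' | σ' <;> simp only [close] at *
  · exact h
  · intro j hj
    exact h j (by omega)

lemma close_inl {K z : ℕ} {e : F0} (h : close K (Sum.inl z) e) : e = Sum.inl z := by
  rcases e with z' | σ'
  · exact congrArg Sum.inl (show z = z' from h).symm
  · exact h.elim

lemma close_inr {K : ℕ} {σ : ℕ → ℕ} {e : F0} (h : close K (Sum.inr σ) e) :
    ∃ σ', e = Sum.inr σ' ∧ ∀ j < K, σ j = σ' j := by
  rcases e with z' | σ'
  · exact h.elim
  · exact ⟨σ', rfl, h⟩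

lemma isOpen_close (K : ℕ) (e : F0) : IsOpen {e' | close K e e'} := by
  rw [isOpen_sum_iff]
  rcases e with z | σ
  · constructor
    · exact isOpen_discrete _
    · convert isOpen_empty
      ext σ'
      simp [close]
  · constructor
    · convert isOpen_empty
      ext σ'
      simp [close]
    · have : Sum.inr ⁻¹' {e' : F0 | close K (Sum.inr σ) e'} =
          ⋂ j ∈ Finset.range K, (fun σ' : ℕ → ℕ => σ' j) ⁻¹' {σ j} := by
        ext σ'
        simp [close, eq_comm]
      rw [this]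
      exact isOpen_biInter_finset fun j _ => (isOpen_discrete _).preimage (continuous_apply j)

lemma exists_close_subset {O : Set F0} (hO : IsOpen O) {e : F0} (he : e ∈ O) :
    ∃ K, ∀ e', close K e e' → e' ∈ O := by
  rw [isOpen_sum_iff] at hO
  rcases e with z | σ
  · refine ⟨0, fun e' h => ?_⟩
    rw [close_inl h]
    exact he
  · obtain ⟨I, u, hu, hsub⟩ := (isOpen_pi_iff.1 hO.2) σ he
    refine ⟨I.sup id + 1, fun e' h => ?_⟩
    obtain ⟨σ', rfl, h'⟩ := close_inr h
    have : σ' ∈ Sum.inr ⁻¹' O := by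
      apply hsub
      intro j hj
      have hj' : j ∈ I := hj
      have := Finset.le_sup (f := id) hj'
      simp only [id] at this
      rw [← h' j (by omega)]
      exact (hu j hj').2
    exact this

lemma close_P_zero {K : ℕ} (hK : 0 < K) {e e' : F0} (h : close K e e') (b : Bool) :
    P b e 0 = P b e' 0 := by
  rcases e with z | σ
  · rw [close_inl h]
  · obtain ⟨σ', rfl, h'⟩ := close_inr h
    rw [P_inr_zero, P_inr_zero, h' 0 hK]

/-- Plain elements approximate special ones. -/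
lemma exists_plain (b : Bool) (K : ℕ) (e : F0) :
    ∃ z : ℕ, ∀ M, ∃ e', close K e e' ∧ ∀ n < M, P b e' n = a b z n := by
  rcases e with z | σ
  · exact ⟨z, fun M => ⟨Sum.inl z, close_refl _ _, fun n _ => rfl⟩⟩
  · obtain ⟨ζ, hζ⟩ := exists_columns b σ K
    refine ⟨ζ, fun M => ?_⟩
    choose w hw using fun j : ℕ => a_dense b (fun n => a b ζ (Nat.pair j n)) M
    refine ⟨Sum.inr (fun j => if j < K then σ j else w j), ?_, ?_⟩
    · intro j hj
      simp [hj]
    · intro n hn
      have hn' : (Nat.unpair n).2 ≤ n := Nat.unpair_right_le n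
      have e1 : Nat.pair (Nat.unpair n).1 (Nat.unpair n).2 = n := Nat.pair_unpair n
      by_cases hj : (Nat.unpair n).1 < K
      · have h1 := hζ _ hj (Nat.unpair n).2
        rw [e1] at h1
        simp only [P, hj, if_true]
        exact h1.symm
      · have h1 := hw (Nat.unpair n).1 (Nat.unpair n).2 (by omega)
        rw [e1] at h1
        simp only [P, hj, if_false]
        exact h1

/-! ### The third level -/

/-- the marker of the pair `(k, l)` -/
def mk (k l : ℕ) : ℕ := cod [Nat.pair k l] 1 []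

lemma a_mk (k l : ℕ) : a false (mk k l) 0 = Nat.pair k l := by
  simp [a, pre, mk, tri_cod, disp]

/-- the special elements with marker `(k, l)` -/
def IsMark (k l : ℕ) (e : F0) : Prop := ∃ μ : ℕ → ℕ, e = Sum.inr μ ∧ μ 0 = mk k l

/-- the plain elements -/
def IsPlain (e : F0) : Prop := ∃ z : ℕ, e = Sum.inl z

/-- the admissible sequences for the pair `(k, l)` -/
def inG (k l : ℕ) (η : ℕ → F0) : Prop :=
  1 ≤ l ∧ IsMark k l (η k) ∧ IsMark k l (η (k + l + 1)) ∧ (∀ i, k + l + 1 < i → IsPlain (η i)) ∧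
    k ≤ P true (η (k + 1)) 0

/-- the third level space -/
def G : Set (ℕ × ℕ × (ℕ → F0)) := {g | inG g.1 g.2.1 g.2.2}

lemma isClosed_isMark (k l : ℕ) : IsClosed {e : F0 | IsMark k l e} := by
  have : {e : F0 | IsMark k l e} = Sum.inr '' {μ : ℕ → ℕ | μ 0 = mk k l} := by
    ext e
    constructor
    · rintro ⟨μ, rfl, h⟩
      exact ⟨μ, h, rfl⟩
    · rintro ⟨μ, h, rfl⟩
      exact ⟨μ, rfl, h⟩
  rw [this]
  apply IsClosedEmbedding.inr.isClosedMap
  exact isClosed_eq (continuous_apply 0) continuous_const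

lemma isClosed_isPlain : IsClosed {e : F0 | IsPlain e} := by
  have : {e : F0 | IsPlain e} = range Sum.inl := by
    ext e
    constructor
    · rintro ⟨z, rfl⟩
      exact ⟨z, rfl⟩
    · rintro ⟨z, rfl⟩
      exact ⟨z, rfl⟩
  rw [this]
  exact isClosed_range_inl

lemma isClosed_inG (k l : ℕ) : IsClosed {η : ℕ → F0 | inG k l η} := by
  have hev : ∀ i, Continuous (fun η : ℕ → F0 => η i) := fun i => continuous_apply i
  have h1 : IsClosed {η : ℕ → F0 | 1 ≤ l} := isClosed_const
  have h2 : IsClosed {η : ℕ → F0 | IsMark k l (η k)} :=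
    (isClosed_isMark k l).preimage (hev k)
  have h3 : IsClosed {η : ℕ → F0 | IsMark k l (η (k + l + 1))} :=
    (isClosed_isMark k l).preimage (hev (k + l + 1))
  have h4 : IsClosed {η : ℕ → F0 | ∀ i, k + l + 1 < i → IsPlain (η i)} := by
    simp only [Set.ofPred_forall]
    exact isClosed_iInter fun i => isClosed_iInter fun _ =>
      isClosed_isPlain.preimage (hev i)
  have h5 : IsClosed {η : ℕ → F0 | k ≤ P true (η (k + 1)) 0} :=
    isClosed_le continuous_const
      ((continuous_apply 0).comp ((P_cont true).comp (hev (k + 1))))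
  exact h1.inter (h2.inter (h3.inter (h4.inter h5)))

lemma isClosed_G : IsClosed G := by
  rw [← isOpen_compl_iff]
  have : Gᶜ = ⋃ k : ℕ, ⋃ l : ℕ, ({k} : Set ℕ) ×ˢ (({l} : Set ℕ) ×ˢ {η : ℕ → F0 | inG k l η}ᶜ) := by
    ext ⟨k, l, η⟩
    simp [G]
  rw [this]
  exact isOpen_iUnion fun k => isOpen_iUnion fun l =>
    (isOpen_discrete _).prod ((isOpen_discrete _).prod (isClosed_inG k l).isOpen_compl)

lemma inG_of_close {k l K : ℕ} {η η' : ℕ → F0} (h : inG k l η) (hK : k + l + 2 ≤ K)
    (hc : ∀ i < K, close K (η i) (η' i)) (hp : ∀ i, K ≤ i → IsPlain (η' i)) : inG k l η' := by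
  obtain ⟨h1, h2, h3, h4, h5⟩ := h
  have hmark : ∀ i < K, IsMark k l (η i) → IsMark k l (η' i) := by
    rintro i hi ⟨μ, hμ, hμ0⟩
    have := hc i hi
    rw [hμ] at this
    obtain ⟨μ', hμ', h'⟩ := close_inr this
    exact ⟨μ', hμ', by rw [← h' 0 (by omega), hμ0]⟩
  refine ⟨h1, hmark k (by omega) h2, hmark _ (by omega) h3, ?_, ?_⟩
  · intro i hi
    by_cases hiK : i < K
    · obtain ⟨z, hz⟩ := h4 i hi
      have := hc i hiK
      rw [hz] at this
      exact ⟨z, close_inl this⟩
    · exact hp i (by omega)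
  · rw [← close_P_zero (by omega) (hc (k + 1) (by omega)) true]
    exact h5

/-- the reordering used by the second display -/
def perm (k l : ℕ) : Equiv.Perm ℕ where
  toFun i := if i < l then k + 1 + i else if i ≤ k + l then i - l else i
  invFun i := if i ≤ k then i + l else if i ≤ k + l then i - (k + 1) else i
  left_inv i := by
    simp only
    split_ifs <;> omega
  right_inv i := by
    simp only
    split_ifs <;> omega

lemma perm_apply (k l i : ℕ) :
    perm k l i = if i < l then k + 1 + i else if i ≤ k + l then i - l else i := rfl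

lemma perm_symm_apply (k l i : ℕ) :
    (perm k l).symm i = if i ≤ k then i + l else if i ≤ k + l then i - (k + 1) else i := rfl

lemma perm_lt {k l K i : ℕ} (hK : k + l + 2 ≤ K) (hi : i < K) : perm k l i < K := by
  rw [perm_apply]
  split_ifs <;> omega

lemma perm_symm_lt {k l K i : ℕ} (hK : k + l + 2 ≤ K) (hi : i < K) : (perm k l).symm i < K := by
  rw [perm_symm_apply]
  split_ifs <;> omega

lemma perm_ge {k l K i : ℕ} (hK : k + l + 2 ≤ K) (hi : K ≤ i) : perm k l i = i := by
  rw [perm_apply]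
  split_ifs <;> omega

lemma perm_symm_ge {k l K i : ℕ} (hK : k + l + 2 ≤ K) (hi : K ≤ i) :
    (perm k l).symm i = i := by
  rw [perm_symm_apply]
  split_ifs <;> omega

/-- first index -/
def kk (g : G) : ℕ := g.1.1
/-- second index -/
def ll (g : G) : ℕ := g.1.2.1
/-- the sequence of data -/
def ee (g : G) : ℕ → F0 := g.1.2.2

lemma inG_ee (g : G) : inG (kk g) (ll g) (ee g) := g.2

/-- the first display -/
def x1 (g : G) : ℕ → ℕ → ℕ := fun i => P false (ee g i)

/-- the second display -/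
def x2 (g : G) : ℕ → ℕ → ℕ := fun i => P true (ee g (perm (kk g) (ll g) i))

lemma continuous_ee (i : ℕ) : Continuous (fun g : G => ee g i) := by
  unfold ee
  fun_prop

lemma continuous_x1 : Continuous x1 := by
  rw [continuous_pi_iff]
  intro i
  exact (P_cont false).comp (continuous_ee i)

lemma continuous_x2 : Continuous x2 := by
  have h : Continuous (fun g : ℕ × ℕ × (ℕ → F0) =>
      (fun i => P true (g.2.2 (perm g.1 g.2.1 i)) : ℕ → ℕ → ℕ)) := by
    rw [continuous_prod_of_discrete_left]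
    intro k
    rw [continuous_prod_of_discrete_left]
    intro l
    rw [continuous_pi_iff]
    intro i
    exact (P_cont true).comp (continuous_apply (perm k l i))
  exact h.comp continuous_subtype_val

lemma G_ext {g g' : G} (h1 : kk g = kk g') (h2 : ll g = ll g') (h3 : ee g = ee g') : g = g' := by
  apply Subtype.ext
  exact Prod.ext h1 (Prod.ext h2 h3)

/-- the indices are determined by the data and by the reordered data -/
lemma indices_eq {k l k' l' : ℕ} {η η' : ℕ → F0} (h : inG k l η) (h' : inG k' l' η')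
    (heq : ∀ i, k + l + 1 ≤ i → k' + l' + 1 ≤ i → η i = η' i)
    (hlt : k + l < k' + l' → IsPlain (η' (k' + l' + 1)))
    (hgt : k' + l' < k + l → IsPlain (η (k + l + 1))) : k = k' ∧ l = l' := by
  have hne : ∀ {k l : ℕ} {e : F0}, IsMark k l e → ¬ IsPlain e := by
    rintro k l e ⟨μ, rfl, _⟩ ⟨z, hz⟩
    cases hz
  rcases lt_trichotomy (k + l) (k' + l') with hlt' | heq' | hgt'
  · exact absurd (hlt hlt') (hne h'.2.2.1)
  · obtain ⟨μ, hμ, hμ0⟩ := h.2.2.1
    obtain ⟨μ', hμ', hμ0'⟩ := h'.2.2.1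
    have := heq (k + l + 1) le_rfl (by omega)
    rw [hμ, show k + l + 1 = k' + l' + 1 by omega, hμ'] at this
    have h1 : μ = μ' := Sum.inr_injective this
    have h2 : mk k l = mk k' l' := by rw [← hμ0, ← hμ0', h1]
    have h3 : Nat.pair k l = Nat.pair k' l' := by rw [← a_mk, ← a_mk, h2]
    exact Nat.pair_eq_pair.1 h3
  · exact absurd (hgt hgt') (hne h.2.2.1)

lemma x1_injective : Function.Injective x1 := by
  intro g g' h
  have he : ee g = ee g' := by
    funext i
    exact P_inj false (congrFun h i)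
  obtain ⟨h1, h2⟩ := indices_eq (inG_ee g) (inG_ee g') (fun i _ _ => by rw [he])
    (fun hlt => by rw [← he]; exact (inG_ee g).2.2.2.1 _ (by omega))
    (fun hlt => by rw [he]; exact (inG_ee g').2.2.2.1 _ (by omega))
  exact G_ext h1 h2 he

lemma x2_injective : Function.Injective x2 := by
  intro g g' h
  have he : ∀ i, ee g (perm (kk g) (ll g) i) = ee g' (perm (kk g') (ll g') i) := by
    intro i
    exact P_inj true (congrFun h i)
  have he' : ∀ i, kk g + ll g + 1 ≤ i → kk g' + ll g' + 1 ≤ i → ee g i = ee g' i := by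
    intro i hi hi'
    have := he i
    rw [perm_apply, perm_apply] at this
    rw [if_neg (by omega), if_neg (by omega), if_neg (by omega), if_neg (by omega)] at this
    exact this
  obtain ⟨h1, h2⟩ := indices_eq (inG_ee g) (inG_ee g') he'
    (fun hlt => by
      rw [← he' _ (by omega) (by omega)]
      exact (inG_ee g).2.2.2.1 _ (by omega))
    (fun hlt => by
      rw [he' _ (by omega) (by omega)]
      exact (inG_ee g').2.2.2.1 _ (by omega))
  refine G_ext h1 h2 ?_
  funext i
  have := he ((perm (kk g) (ll g)).symm i)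
  rw [← h1, ← h2] at this
  simpa using this

/-! ### Basic open sets and local connectedness -/

/-- basic neighbourhoods in the third level space -/
def U (K : ℕ) (g : G) : Set G :=
  {g' | kk g' = kk g ∧ ll g' = ll g ∧ ∀ i < K, close K (ee g i) (ee g' i)}

lemma mem_U_self (K : ℕ) (g : G) : g ∈ U K g := ⟨rfl, rfl, fun _ _ => close_refl _ _⟩

lemma U_mono {K K' : ℕ} (h : K ≤ K') (g : G) : U K' g ⊆ U K g := by
  rintro g' ⟨h1, h2, h3⟩
  exact ⟨h1, h2, fun i hi => close_mono h (h3 i (by omega))⟩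

lemma U_trans {K : ℕ} {g g' g'' : G} (h : g' ∈ U K g) (h' : g'' ∈ U K g') : g'' ∈ U K g :=
  ⟨h'.1.trans h.1, h'.2.1.trans h.2.1, fun i hi => close_trans (h.2.2 i hi) (h'.2.2 i hi)⟩

lemma isOpen_U (K : ℕ) (g : G) : IsOpen (U K g) := by
  have h1 : IsOpen {g' : G | kk g' = kk g} := by
    have : Continuous kk := by unfold kk; fun_prop
    exact (isOpen_discrete {kk g}).preimage this
  have h2 : IsOpen {g' : G | ll g' = ll g} := by
    have : Continuous ll := by unfold ll; fun_prop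
    exact (isOpen_discrete {ll g}).preimage this
  have h3 : IsOpen {g' : G | ∀ i < K, close K (ee g i) (ee g' i)} := by
    have : {g' : G | ∀ i < K, close K (ee g i) (ee g' i)} =
        ⋂ i ∈ Finset.range K, (fun g' : G => ee g' i) ⁻¹' {e | close K (ee g i) e} := by
      ext g'
      simp
    rw [this]
    exact isOpen_biInter_finset fun i _ => (isOpen_close K (ee g i)).preimage (continuous_ee i)
  exact h1.inter (h2.inter h3)

lemma exists_U_subset {O : Set G} (hO : IsOpen O) {g : G} (hg : g ∈ O) (K₀ : ℕ) :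
    ∃ K, K₀ ≤ K ∧ U K g ⊆ O := by
  obtain ⟨O', hO', rfl⟩ := isOpen_induced_iff.1 hO
  have hs : IsOpen ((fun η : ℕ → F0 => ((kk g, ll g, η) : ℕ × ℕ × (ℕ → F0))) ⁻¹' O') :=
    hO'.preimage (by fun_prop)
  obtain ⟨I, u, hu, hsub⟩ := (isOpen_pi_iff.1 hs) (ee g) hg
  have hK : ∀ i ∈ I, ∃ K, ∀ e', close K (ee g i) e' → e' ∈ u i := fun i hi =>
    exists_close_subset (hu i hi).1 (hu i hi).2
  choose! κ hκ using hK
  refine ⟨max K₀ (max (I.sup id + 1) (I.sup κ)), le_max_left _ _, ?_⟩
  rintro g' ⟨h1, h2, h3⟩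
  have h4 : ee g' ∈ (fun η : ℕ → F0 => ((kk g, ll g, η) : ℕ × ℕ × (ℕ → F0))) ⁻¹' O' := by
    apply hsub
    intro i hi
    have hi' : i ∈ I := hi
    have e1 := Finset.le_sup (f := id) hi'
    have e2 := Finset.le_sup (f := κ) hi'
    simp only [id] at e1
    apply hκ i hi'
    refine close_mono ?_ (h3 i ?_)
    · exact e2.trans ((le_max_right _ _).trans (le_max_right _ _))
    · have := (le_max_left (I.sup id + 1) (I.sup κ)).trans (le_max_right K₀ _)
      omega
  have h5 : (g' : ℕ × ℕ × (ℕ → F0)) = (kk g, ll g, ee g') := by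
    rw [← h1, ← h2]
    rfl
  show (g' : ℕ × ℕ × (ℕ → F0)) ∈ O'
  rw [h5]
  exact h4

/-- filling the free coordinates -/
def fill (K : ℕ) (η : ℕ → F0) (p : ℕ × ℕ → ℕ) : ℕ → F0 := fun i =>
  if i < K then Sum.elim (fun z => Sum.inl z)
    (fun σ => Sum.inr (fun j => if j < K then σ j else p (i, j))) (η i)
  else Sum.inl (p (i, 0))

/-- the display of the filled sequence -/
def fillP (b : Bool) (K : ℕ) (η : ℕ → F0) (ξ : ℕ × ℕ → (ℕ → ℕ)) : ℕ → ℕ → ℕ := fun i =>
  if i < K then Sum.elim (fun z => a b z)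
    (fun σ m => if (Nat.unpair m).1 < K then a b (σ (Nat.unpair m).1) (Nat.unpair m).2
      else ξ (i, (Nat.unpair m).1) (Nat.unpair m).2) (η i)
  else ξ (i, 0)

lemma P_fill (b : Bool) (K : ℕ) (η : ℕ → F0) (p : ℕ × ℕ → ℕ) (i : ℕ) :
    P b (fill K η p i) = fillP b K η (fun x => a b (p x)) i := by
  unfold fill fillP
  split_ifs with h
  · rcases η i with z | σ
    · rfl
    · funext m
      simp only [Sum.elim_inr, P]
      split_ifs <;> rfl
  · rfl

lemma continuous_fillP (b : Bool) (K : ℕ) (η : ℕ → F0) : Continuous (fillP b K η) := by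
  rw [continuous_pi_iff]
  intro i
  unfold fillP
  split_ifs with h
  · rcases η i with z | σ
    · exact continuous_const
    · rw [continuous_pi_iff]
      intro m
      simp only [Sum.elim_inr]
      split_ifs
      · exact continuous_const
      · exact (continuous_apply (Nat.unpair m).2).comp
          (continuous_apply (A := fun _ : ℕ × ℕ => ℕ → ℕ) (i, (Nat.unpair m).1))
  · exact continuous_apply (A := fun _ : ℕ × ℕ => ℕ → ℕ) (i, 0)

lemma fill_mem {K : ℕ} {g : G} (hK : kk g + ll g + 2 ≤ K) (p : ℕ × ℕ → ℕ) :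
    (kk g, ll g, fill K (ee g) p) ∈ G := by
  refine inG_of_close (inG_ee g) hK ?_ ?_
  · intro i hi
    simp only [fill, hi, if_true]
    rcases ee g i with z | σ
    · exact rfl
    · intro j hj
      simp [hj]
  · intro i hi
    have : ¬ i < K := by omega
    simp only [fill, this, if_false]
    exact ⟨_, rfl⟩

lemma fill_mem_U {K : ℕ} {g : G} (hK : kk g + ll g + 2 ≤ K) (p : ℕ × ℕ → ℕ) :
    (⟨(kk g, ll g, fill K (ee g) p), fill_mem hK p⟩ : G) ∈ U K g := by
  refine ⟨rfl, rfl, fun i hi => ?_⟩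
  show close K (ee g i) (fill K (ee g) p i)
  simp only [fill, hi, if_true]
  rcases ee g i with z | σ
  · exact rfl
  · intro j hj
    simp [hj]

lemma exists_fill {K : ℕ} {g g' : G} (hK : kk g + ll g + 2 ≤ K) (hg' : g' ∈ U K g) :
    ∃ p : ℕ × ℕ → ℕ, g' = ⟨(kk g, ll g, fill K (ee g) p), fill_mem hK p⟩ := by
  obtain ⟨h1, h2, h3⟩ := hg'
  let p : ℕ × ℕ → ℕ := fun x =>
    if x.1 < K then Sum.elim (fun _ => 0) (fun σ => σ x.2) (ee g' x.1)
    else Sum.elim id (fun _ => 0) (ee g' x.1)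
  refine ⟨p, G_ext h1 h2 ?_⟩
  funext i
  show ee g' i = fill K (ee g) p i
  by_cases hi : i < K
  · have hc := h3 i hi
    simp only [fill, hi, if_true]
    rcases hgi : ee g i with z | σ
    · rw [hgi] at hc
      rw [close_inl hc]
      rfl
    · rw [hgi] at hc
      obtain ⟨σ', hσ', hσσ'⟩ := close_inr hc
      rw [hσ']
      simp only [Sum.elim_inr]
      congr 1
      funext j
      by_cases hj : j < K
      · simp [hj, hσσ' j hj]
      · simp [hj, p, hi, hσ']
  · simp only [fill, hi, if_false, p]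
    obtain ⟨z, hz⟩ := (inG_ee g').2.2.2.1 i (by omega)
    rw [hz]
    rfl

/-- Local connectedness: common continuous information is constant on basic open sets. -/
lemma conn {K : ℕ} {g : G} (hK : kk g + ll g + 2 ≤ K) {φ ψ : (ℕ → ℕ → ℕ) → ℕ}
    (hφ : Continuous φ) (hψ : Continuous ψ) (h : ∀ g' ∈ U K g, φ (x1 g') = ψ (x2 g')) :
    ∀ g' ∈ U K g, φ (x1 g') = φ (x1 g) := by
  have hc1 : Continuous (fun ξ => φ (fillP false K (ee g) ξ)) := hφ.comp (continuous_fillP _ _ _)
  have hc2 : Continuous (fun ξ => ψ (fun i => fillP true K (ee g) ξ (perm (kk g) (ll g) i))) := by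
    apply hψ.comp
    rw [continuous_pi_iff]
    intro i
    exact (continuous_apply (perm (kk g) (ll g) i)).comp (continuous_fillP _ _ _)
  have e1 : ∀ p : ℕ × ℕ → ℕ, x1 ⟨(kk g, ll g, fill K (ee g) p), fill_mem hK p⟩ =
      fillP false K (ee g) (fun x => a false (p x)) := by
    intro p
    funext i
    exact P_fill false K (ee g) p i
  have e2 : ∀ p : ℕ × ℕ → ℕ, x2 ⟨(kk g, ll g, fill K (ee g) p), fill_mem hK p⟩ =
      fun i => fillP true K (ee g) (fun x => a true (p x)) (perm (kk g) (ll g) i) := by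
    intro p
    funext i
    exact P_fill true K (ee g) p _
  have key := prod_conn hc1 hc2 (fun p => by
    have := h _ (fill_mem_U hK p)
    rw [e1, e2] at this
    exact this)
  intro g' hg'
  obtain ⟨p, rfl⟩ := exists_fill hK hg'
  obtain ⟨q, hq⟩ := exists_fill hK (mem_U_self K g)
  conv_rhs => rw [hq]
  rw [e1, e1]
  exact key p q

/-! ### Closure computations -/

lemma mem_closure_matrix {S : Set (ℕ → ℕ → ℕ)} {x : ℕ → ℕ → ℕ}
    (h : ∀ M, ∃ s ∈ S, ∀ i < M, ∀ j < M, s i j = x i j) : x ∈ closure S := by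
  choose s hs hsx using h
  refine mem_closure_of_tendsto (f := s) (b := atTop) ?_ (Eventually.of_forall hs)
  rw [tendsto_pi_nhds]
  intro i
  rw [tendsto_pi_nhds]
  intro j
  apply tendsto_nhds_of_eventually_eq
  filter_upwards [eventually_ge_atTop (max i j + 1)] with M hM
  have h1 := le_max_left i j
  have h2 := le_max_right i j
  exact hsx M i (by omega) j (by omega)

lemma x1_mem_closure {K : ℕ} {g w : G} (hK : kk g + ll g + 2 ≤ K)
    (h : ∀ i < K, ∀ M, ∃ e, close K (ee g i) e ∧ ∀ n < M, P false e n = P false (ee w i) n) :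
    x1 w ∈ closure (x1 '' U K g) := by
  classical
  apply mem_closure_matrix
  intro M
  choose! e he using fun i (hi : i < K) => h i hi M
  choose z hz using fun i => a_dense false (P false (ee w i)) M
  let η : ℕ → F0 := fun i => if i < K then e i else Sum.inl (z i)
  have h1 : ∀ i < K, close K (ee g i) (η i) := by
    intro i hi
    simp only [η, hi, if_true]
    exact (he i hi).1
  have h2 : ∀ i, K ≤ i → IsPlain (η i) := by
    intro i hi
    have : ¬ i < K := by omega
    simp only [η, this, if_false]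
    exact ⟨_, rfl⟩
  let v : G := ⟨(kk g, ll g, η), inG_of_close (inG_ee g) hK h1 h2⟩
  have hv : v ∈ U K g := ⟨rfl, rfl, h1⟩
  refine ⟨x1 v, ⟨v, hv, rfl⟩, ?_⟩
  intro i _ j hj
  show P false (η i) j = P false (ee w i) j
  by_cases hi : i < K
  · simp only [η, hi, if_true]
    exact (he i hi).2 j hj
  · simp only [η, hi, if_false]
    exact hz i j hj

lemma x2_mem_closure {K : ℕ} {g w : G} (hK : kk g + ll g + 2 ≤ K)
    (h : ∀ i < K, ∀ M, ∃ e, close K (ee g (perm (kk g) (ll g) i)) e ∧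
      ∀ n < M, P true e n = P true (ee w (perm (kk w) (ll w) i)) n) :
    x2 w ∈ closure (x2 '' U K g) := by
  classical
  apply mem_closure_matrix
  intro M
  choose! e he using fun i (hi : i < K) => h i hi M
  choose z hz using fun i => a_dense true (P true (ee w (perm (kk w) (ll w) i))) M
  let η : ℕ → F0 := fun i => if i < K then e ((perm (kk g) (ll g)).symm i) else Sum.inl (z i)
  have h1 : ∀ i < K, close K (ee g i) (η i) := by
    intro i hi
    simp only [η, hi, if_true]
    have := (he _ (perm_symm_lt hK hi)).1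
    simpa using this
  have h2 : ∀ i, K ≤ i → IsPlain (η i) := by
    intro i hi
    have : ¬ i < K := by omega
    simp only [η, this, if_false]
    exact ⟨_, rfl⟩
  let v : G := ⟨(kk g, ll g, η), inG_of_close (inG_ee g) hK h1 h2⟩
  have hv : v ∈ U K g := ⟨rfl, rfl, h1⟩
  refine ⟨x2 v, ⟨v, hv, rfl⟩, ?_⟩
  intro i _ j hj
  show P true (η (perm (kk g) (ll g) i)) j = P true (ee w (perm (kk w) (ll w) i)) j
  by_cases hi : i < K
  · have hi' := perm_lt hK hi
    simp only [η, hi', if_true, Equiv.symm_apply_apply]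
    exact (he i hi).2 j hj
  · rw [perm_ge hK (by omega)]
    simp only [η, hi, if_false]
    exact hz i j hj

/-! ### Spreading a constant value -/

lemma value_of_closure {T : (ℕ → ℕ → ℕ) → (ℕ → ℕ)} (hT : Continuous T) {c : ℕ → ℕ}
    {S : Set (ℕ → ℕ → ℕ)} (h : ∀ x ∈ S, T x = c) {x : ℕ → ℕ → ℕ} (hx : x ∈ closure S) :
    T x = c := by
  have h1 : IsClosed (T ⁻¹' {c}) := isClosed_singleton.preimage hT
  exact closure_minimal (fun x hx => h x hx) h1 hx

/-- a plain element whose second display starts with `N` -/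
def zN (N : ℕ) : ℕ := cod [] N []

lemma a_zN (N : ℕ) : a true (zN N) 0 = N := by
  simp [a, pre, zN, tri_cod, disp]

/-- the data of the connecting point -/
def uu (K K' N : ℕ) (η η' : ℕ → F0) : ℕ → F0 := fun i =>
  if i < K then η i
  else if i = K then Sum.inr (fun _ => mk K (K' + 3))
  else if i = K + 1 then Sum.inl (zN N)
  else if i < K + 2 + K' then η' (i - (K + 2))
  else if i < K + K' + 4 then Sum.inr (fun _ => mk K' 1)
  else if i = K + K' + 4 then Sum.inr (fun _ => mk K (K' + 3))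
  else Sum.inl 0

lemma uu_lt {K K' N : ℕ} {η η' : ℕ → F0} {i : ℕ} (hi : i < K) : uu K K' N η η' i = η i := by
  simp [uu, hi]

lemma uu_one {K K' N : ℕ} {η η' : ℕ → F0} :
    uu K K' N η η' (K + 1) = Sum.inl (zN N) := by
  simp [uu]

lemma uu_mid {K K' N : ℕ} {η η' : ℕ → F0} {i : ℕ} (hi : i < K') :
    uu K K' N η η' (K + 2 + i) = η' i := by
  have h1 : ¬ K + 2 + i < K := by omega
  have h2 : ¬ K + 2 + i = K := by omega
  have h3 : ¬ K + 2 + i = K + 1 := by omega
  have h4 : K + 2 + i < K + 2 + K' := by omega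
  have h5 : K + 2 + i - (K + 2) = i := by omega
  simp only [uu, h1, h2, h3, h4, h5, if_true, if_false]

lemma uu_mark {K K' N : ℕ} {η η' : ℕ → F0} {i : ℕ} (hi : K + 2 + K' ≤ i)
    (hi' : i < K + K' + 4) : uu K K' N η η' i = Sum.inr (fun _ => mk K' 1) := by
  have h1 : ¬ i < K := by omega
  have h2 : ¬ i = K := by omega
  have h3 : ¬ i = K + 1 := by omega
  have h4 : ¬ i < K + 2 + K' := by omega
  simp only [uu, h1, h2, h3, h4, hi', if_true, if_false]

lemma uu_inG {K K' N : ℕ} (hN : K ≤ N) (η η' : ℕ → F0) :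
    inG K (K' + 3) (uu K K' N η η') := by
  refine ⟨by omega, ⟨fun _ => mk K (K' + 3), ?_, rfl⟩, ⟨fun _ => mk K (K' + 3), ?_, rfl⟩, ?_, ?_⟩
  · simp [uu]
  · have h1 : ¬ K + (K' + 3) + 1 < K := by omega
    have h2 : ¬ K + (K' + 3) + 1 = K := by omega
    have h3 : ¬ K + (K' + 3) + 1 = K + 1 := by omega
    have h4 : ¬ K + (K' + 3) + 1 < K + 2 + K' := by omega
    have h5 : ¬ K + (K' + 3) + 1 < K + K' + 4 := by omega
    have h6 : K + (K' + 3) + 1 = K + K' + 4 := by omega
    simp only [uu, h1, h2, h3, h4, h5, if_false, if_pos h6]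
  · intro i hi
    have h1 : ¬ i < K := by omega
    have h2 : ¬ i = K := by omega
    have h3 : ¬ i = K + 1 := by omega
    have h4 : ¬ i < K + 2 + K' := by omega
    have h5 : ¬ i < K + K' + 4 := by omega
    have h6 : ¬ i = K + K' + 4 := by omega
    simp only [uu, h1, h2, h3, h4, h5, h6, if_false]
    exact ⟨0, rfl⟩
  · rw [uu_one]
    show K ≤ a true (zN N) 0
    rw [a_zN]
    exact hN

lemma spread {T₁ T₂ : ℕ → (ℕ → ℕ → ℕ) → (ℕ → ℕ)} (h₁ : ∀ n, Continuous (T₁ n))
    (h₂ : ∀ m, Continuous (T₂ m)) {D : Set G} (hD : Dense D)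
    (hD1 : ∀ g ∈ D, ∀ n, ∃ m, T₁ n (x1 g) = T₂ m (x2 g))
    (hD2 : ∀ g ∈ D, ∀ m, ∃ n, T₂ m (x2 g) = T₁ n (x1 g))
    (hL1 : ∀ g ∈ D, ∀ n, ∃ K, ∀ g' ∈ U K g, T₁ n (x1 g') = T₁ n (x1 g))
    (hL2 : ∀ g ∈ D, ∀ m, ∃ K, ∀ g' ∈ U K g, T₂ m (x2 g') = T₂ m (x2 g))
    {g₀ : G} {K : ℕ} (hK : kk g₀ + ll g₀ + 2 ≤ K) {n : ℕ} {c : ℕ → ℕ}
    (hc : ∀ g' ∈ U K g₀, T₁ n (x1 g') = c) (g' : G) {K' : ℕ} (hK' : kk g' + ll g' + 2 ≤ K') :
    ∃ v ∈ U K' g', ∃ n' K'', ∀ w ∈ U K'' v, T₁ n' (x1 w) = c := by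
  classical
  set N := max K K' with hN
  have hKN : K ≤ N := le_max_left _ _
  have hK'N : K' ≤ N := le_max_right _ _
  let u : G := ⟨(K, K' + 3, uu K K' N (ee g₀) (ee g')), uu_inG hKN (ee g₀) (ee g')⟩
  have hue : ee u = uu K K' N (ee g₀) (ee g') := rfl
  -- step A
  have hA : ∀ w ∈ U (K + K' + 6) u, T₁ n (x1 w) = c := by
    intro w hw
    refine value_of_closure (h₁ n) (S := x1 '' U K g₀) ?_ (x1_mem_closure hK ?_)
    · rintro _ ⟨g, hg, rfl⟩
      exact hc g hg
    · intro i hi M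
      refine ⟨ee w i, ?_, fun _ _ => rfl⟩
      have := hw.2.2 i (by omega)
      rw [hue, uu_lt hi] at this
      exact close_mono (by omega) this
  obtain ⟨w, hwU, hwD⟩ := hD.inter_open_nonempty _ (isOpen_U (K + K' + 6) u) ⟨u, mem_U_self _ _⟩
  have hwk : kk w = K := hwU.1
  have hwl : ll w = K' + 3 := hwU.2.1
  have hwc := hwU.2.2
  rw [hue] at hwc
  obtain ⟨m, hm⟩ := hD1 w hwD n
  rw [hA w hwU] at hm
  obtain ⟨K2', hK2'⟩ := hL2 w hwD m
  set K2 := max K2' (K + K' + 6) with hK2
  have hK2a : K2' ≤ K2 := le_max_left _ _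
  have hK2b : K + K' + 6 ≤ K2 := le_max_right _ _
  have hB0 : ∀ g ∈ U K2 w, T₂ m (x2 g) = c := by
    intro g hg
    rw [hK2' g (U_mono hK2a w hg), hm]
  -- the second point
  choose z hz using fun i => exists_plain true K2 (ee w (perm K (K' + 3) i))
  let ηy : ℕ → F0 := fun i =>
    if i ≤ K' then ee w (K + 2 + i) else if i = K' + 1 then ee w (K + 1)
    else if i = K' + 2 then ee w (K + K' + 3) else Sum.inl (z i)
  have hw1 : ee w (K + 1) = Sum.inl (zN N) := by
    have := hwc (K + 1) (by omega)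
    rw [uu_one] at this
    exact close_inl this
  have hmark : ∀ i, K + 2 + K' ≤ i → i < K + K' + 4 → IsMark K' 1 (ee w i) := by
    intro i hi hi'
    have := hwc i (by omega)
    rw [uu_mark hi hi'] at this
    obtain ⟨σ', hσ', h'⟩ := close_inr this
    exact ⟨σ', hσ', (h' 0 (by omega)).symm⟩
  have hyG : inG K' 1 ηy := by
    refine ⟨le_rfl, ?_, ?_, ?_, ?_⟩
    · have : ηy K' = ee w (K + 2 + K') := by simp [ηy]
      rw [this]
      exact hmark _ (by omega) (by omega)
    · have h1 : ¬ K' + 1 + 1 ≤ K' := by omega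
      have h2 : ¬ K' + 1 + 1 = K' + 1 := by omega
      have : ηy (K' + 1 + 1) = ee w (K + K' + 3) := by simp [ηy, h1]
      rw [this]
      exact hmark _ (by omega) (by omega)
    · intro i hi
      have h1 : ¬ i ≤ K' := by omega
      have h2 : ¬ i = K' + 1 := by omega
      have h3 : ¬ i = K' + 2 := by omega
      have : ηy i = Sum.inl (z i) := by simp [ηy, h1, h2, h3]
      rw [this]
      exact ⟨_, rfl⟩
    · have : ηy (K' + 1) = ee w (K + 1) := by simp [ηy]
      rw [this, hw1]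
      show K' ≤ a true (zN N) 0
      rw [a_zN]
      exact hK'N
  let y : G := ⟨(K', 1, ηy), hyG⟩
  have hye : ee y = ηy := rfl
  -- step B
  have hB : ∀ w' ∈ U K2 y, T₂ m (x2 w') = c := by
    intro w' hw'
    refine value_of_closure (h₂ m) (S := x2 '' U K2 w) ?_ (x2_mem_closure (by omega) ?_)
    · rintro _ ⟨g, hg, rfl⟩
      exact hB0 g hg
    · intro i hi M
      have hk' : kk w' = K' := hw'.1
      have hl' : ll w' = 1 := hw'.2.1
      have hc' := hw'.2.2
      rw [hye] at hc'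
      rw [hwk, hwl, hk', hl']
      by_cases hi3 : i < K' + 3
      · -- agreement positions
        have hp : perm K (K' + 3) i = K + 1 + i := by
          rw [perm_apply, if_pos hi3]
        have hq : ηy (perm K' 1 i) = ee w (K + 1 + i) := by
          rw [perm_apply]
          by_cases h0 : i < 1
          · have : i = 0 := by omega
            subst this
            simp [ηy]
          · by_cases h1 : i ≤ K' + 1
            · have h2 : i - 1 ≤ K' := by omega
              have h3 : K + 2 + (i - 1) = K + 1 + i := by omega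
              simp only [h0, h1, if_true, if_false, ηy, h2, h3]
            · have h2 : i = K' + 2 := by omega
              subst h2
              have h3 : ¬ K' + 2 < 1 := by omega
              have h4 : K + 1 + (K' + 2) = K + K' + 3 := by omega
              simp [ηy, h4]
        have hpl : perm K' 1 i < K2 := perm_lt (by omega) hi
        refine ⟨ee w' (perm K' 1 i), ?_, fun _ _ => rfl⟩
        rw [hp, ← hq]
        exact hc' _ hpl
      · have hq : perm K' 1 i = i := by
          rw [perm_apply, if_neg (by omega), if_neg (by omega)]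
        have hηi : ηy i = Sum.inl (z i) := by
          have h1 : ¬ i ≤ K' := by omega
          have h2 : ¬ i = K' + 1 := by omega
          have h3 : ¬ i = K' + 2 := by omega
          simp [ηy, h1, h2, h3]
        have hwi : ee w' i = Sum.inl (z i) := by
          have := hc' i hi
          rw [hηi] at this
          exact close_inl this
        rw [hq, hwi]
        exact hz i M
  obtain ⟨w', hwU', hwD'⟩ := hD.inter_open_nonempty _ (isOpen_U K2 y) ⟨y, mem_U_self _ _⟩
  have hwk' : kk w' = K' := hwU'.1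
  have hwl' : ll w' = 1 := hwU'.2.1
  have hwc' := hwU'.2.2
  rw [hye] at hwc'
  obtain ⟨n', hn'⟩ := hD2 w' hwD' m
  rw [hB w' hwU'] at hn'
  obtain ⟨K4', hK4'⟩ := hL1 w' hwD' n'
  set K4 := max K4' K2 with hK4
  have hK4a : K4' ≤ K4 := le_max_left _ _
  have hK4b : K2 ≤ K4 := le_max_right _ _
  have hC0 : ∀ g ∈ U K4 w', T₁ n' (x1 g) = c := by
    intro g hg
    rw [hK4' g (U_mono hK4a w' hg), hn']
  -- the third point
  choose z' hz' using fun i => exists_plain false K4 (ee w' i)
  let ηv : ℕ → F0 := fun i => if i < K' then ee w' i else Sum.inl (z' i)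
  have hv1 : ∀ i < K', close K' (ee g' i) (ηv i) := by
    intro i hi
    have e1 : ηv i = ee w' i := by simp [ηv, hi]
    have e2 : ηy i = ee w (K + 2 + i) := by
      have : i ≤ K' := by omega
      simp [ηy, this]
    have c1 := hwc (K + 2 + i) (by omega)
    rw [uu_mid hi] at c1
    have c2 := hwc' i (by omega)
    rw [e2] at c2
    rw [e1]
    exact close_trans (close_mono (by omega) c1) (close_mono (by omega) c2)
  have hv2 : ∀ i, K' ≤ i → IsPlain (ηv i) := by
    intro i hi
    have : ¬ i < K' := by omega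
    simp only [ηv, this, if_false]
    exact ⟨_, rfl⟩
  let v : G := ⟨(kk g', ll g', ηv), inG_of_close (inG_ee g') hK' hv1 hv2⟩
  have hve : ee v = ηv := rfl
  refine ⟨v, ⟨rfl, rfl, hv1⟩, n', K4, ?_⟩
  intro w'' hw''
  refine value_of_closure (h₁ n') (S := x1 '' U K4 w') ?_ (x1_mem_closure (by omega) ?_)
  · rintro _ ⟨g, hg, rfl⟩
    exact hC0 g hg
  · intro i hi M
    have hc'' := hw''.2.2 i hi
    rw [hve] at hc''
    by_cases hi' : i < K'
    · have e1 : ηv i = ee w' i := by simp [ηv, hi']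
      rw [e1] at hc''
      exact ⟨ee w'' i, hc'', fun _ _ => rfl⟩
    · have e1 : ηv i = Sum.inl (z' i) := by simp [ηv, hi']
      rw [e1] at hc''
      rw [close_inl hc'']
      exact hz' i M

/-! ### The Baire category argument -/

instance : PolishSpace G := isClosed_G.polishSpace

lemma generic {T₁ T₂ : ℕ → (ℕ → ℕ → ℕ) → (ℕ → ℕ)} (h₁ : ∀ n, Continuous (T₁ n))
    (h₂ : ∀ m, Continuous (T₂ m))
    (hr1 : ∀ g : G, ∀ n, ∃ m, T₁ n (x1 g) = T₂ m (x2 g))
    (hr2 : ∀ g : G, ∀ m, ∃ n, T₂ m (x2 g) = T₁ n (x1 g)) :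
    ∀ᶠ g in residual G, (∀ n, ∃ K, ∀ g' ∈ U K g, T₁ n (x1 g') = T₁ n (x1 g)) ∧
      (∀ m, ∃ K, ∀ g' ∈ U K g, T₂ m (x2 g') = T₂ m (x2 g)) := by
  have hcl : ∀ n m, IsClosed {g : G | T₁ n (x1 g) = T₂ m (x2 g)} := fun n m =>
    isClosed_eq ((h₁ n).comp continuous_x1) ((h₂ m).comp continuous_x2)
  have hloc : ∀ n m, ∀ g ∈ interior {g : G | T₁ n (x1 g) = T₂ m (x2 g)}, ∃ K,
      (∀ g' ∈ U K g, T₁ n (x1 g') = T₁ n (x1 g)) ∧
      (∀ g' ∈ U K g, T₂ m (x2 g') = T₂ m (x2 g)) := by
    intro n m g hg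
    obtain ⟨K, hK, hsub⟩ := exists_U_subset isOpen_interior hg (kk g + ll g + 2)
    have heq : ∀ g' ∈ U K g, T₁ n (x1 g') = T₂ m (x2 g') := by
      intro g' hg'
      have : g' ∈ {g : G | T₁ n (x1 g) = T₂ m (x2 g)} := interior_subset (hsub hg')
      exact this
    have h3 : ∀ g' ∈ U K g, T₁ n (x1 g') = T₁ n (x1 g) := by
      intro g' hg'
      funext k
      exact conn hK (φ := fun ξ => T₁ n ξ k) (ψ := fun θ => T₂ m θ k)
        ((continuous_apply k).comp (h₁ n)) ((continuous_apply k).comp (h₂ m))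
        (fun g'' hg'' => congrFun (heq g'' hg'') k) g' hg'
    refine ⟨K, h3, ?_⟩
    intro g' hg'
    rw [← heq g' hg', h3 g' hg', heq g (mem_U_self K g)]
  have hA : ∀ n, ∀ᶠ g in residual G, ∃ K, ∀ g' ∈ U K g, T₁ n (x1 g') = T₁ n (x1 g) := by
    intro n
    have hd : Dense (⋃ m, interior {g : G | T₁ n (x1 g) = T₂ m (x2 g)}) := by
      apply dense_iUnion_interior_of_closed (hcl n)
      rw [iUnion_eq_univ_iff]
      intro g
      exact hr1 g n
    have ho : IsOpen (⋃ m, interior {g : G | T₁ n (x1 g) = T₂ m (x2 g)}) :=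
      isOpen_iUnion fun m => isOpen_interior
    filter_upwards [residual_of_dense_open ho hd] with g hg
    obtain ⟨m, hm⟩ := mem_iUnion.1 hg
    obtain ⟨K, h3, -⟩ := hloc n m g hm
    exact ⟨K, h3⟩
  have hB : ∀ m, ∀ᶠ g in residual G, ∃ K, ∀ g' ∈ U K g, T₂ m (x2 g') = T₂ m (x2 g) := by
    intro m
    have hd : Dense (⋃ n, interior {g : G | T₁ n (x1 g) = T₂ m (x2 g)}) := by
      apply dense_iUnion_interior_of_closed (fun n => hcl n m)
      rw [iUnion_eq_univ_iff]
      intro g
      obtain ⟨n, hn⟩ := hr2 g m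
      exact ⟨n, hn.symm⟩
    have ho : IsOpen (⋃ n, interior {g : G | T₁ n (x1 g) = T₂ m (x2 g)}) :=
      isOpen_iUnion fun n => isOpen_interior
    filter_upwards [residual_of_dense_open ho hd] with g hg
    obtain ⟨n, hn⟩ := mem_iUnion.1 hg
    obtain ⟨K, -, h3⟩ := hloc n m g hn
    exact ⟨K, h3⟩
  exact (eventually_countable_forall.2 hA).and (eventually_countable_forall.2 hB)

/-- No sequences of continuous functions satisfying the range condition separate points. -/
theorem not_separating {T₁ T₂ : ℕ → (ℕ → ℕ → ℕ) → (ℕ → ℕ)} (h₁ : ∀ n, Continuous (T₁ n))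
    (h₂ : ∀ m, Continuous (T₂ m))
    (hr1 : ∀ g : G, ∀ n, ∃ m, T₁ n (x1 g) = T₂ m (x2 g))
    (hr2 : ∀ g : G, ∀ m, ∃ n, T₂ m (x2 g) = T₁ n (x1 g)) :
    ∃ g g' : G, g ≠ g' ∧ range (fun n => T₁ n (x1 g)) = range (fun n => T₁ n (x1 g')) := by
  have hgen := generic h₁ h₂ hr1 hr2
  set D : Set G := {g | (∀ n, ∃ K, ∀ g' ∈ U K g, T₁ n (x1 g') = T₁ n (x1 g)) ∧
      (∀ m, ∃ K, ∀ g' ∈ U K g, T₂ m (x2 g') = T₂ m (x2 g))} with hDdef
  have hDr : D ∈ residual G := hgen
  have hD : Dense D := dense_of_mem_residual hDr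
  let O : (ℕ → ℕ) → Set G := fun c => {g | ∃ n K, ∀ g' ∈ U K g, T₁ n (x1 g') = c}
  have hOopen : ∀ c, IsOpen (O c) := by
    intro c
    rw [isOpen_iff_forall_mem_open]
    rintro g ⟨n, K, hn⟩
    refine ⟨U K g, ?_, isOpen_U K g, mem_U_self K g⟩
    intro g'' hg''
    exact ⟨n, K, fun g' hg' => hn g' (U_trans hg'' hg')⟩
  have hOdense : ∀ c, (O c).Nonempty → Dense (O c) := by
    rintro c ⟨g₀, n, K, hn⟩
    rw [dense_iff_inter_open]
    rintro W hW ⟨g', hg'⟩
    obtain ⟨K', hK', hsub⟩ := exists_U_subset hW hg' (kk g' + ll g' + 2)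
    obtain ⟨v, hv, n', K'', hn'⟩ := spread h₁ h₂ hD (fun g _ => hr1 g) (fun g _ => hr2 g)
      (fun g hg => hg.1) (fun g hg => hg.2)
      (le_max_right K (kk g₀ + ll g₀ + 2))
      (fun g' hg' => hn g' (U_mono (le_max_left _ _) _ hg')) g' hK'
    exact ⟨v, hsub hv, n', K'', hn'⟩
  obtain ⟨s, hsc, hsd⟩ := TopologicalSpace.exists_countable_dense G
  have hCc : {c | (O c).Nonempty}.Countable := by
    have hsub : {c | (O c).Nonempty} ⊆ ⋃ g ∈ s, range (fun n => T₁ n (x1 g)) := by
      intro c hc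
      obtain ⟨g, hg, hgs⟩ := hsd.inter_open_nonempty _ (hOopen c) hc
      obtain ⟨n, K, hn⟩ := hg
      simp only [mem_iUnion]
      exact ⟨g, hgs, n, hn g (mem_U_self K g)⟩
    exact (hsc.biUnion fun g _ => countable_range _).mono hsub
  have hall : ∀ᶠ g in residual G, g ∈ D ∧ ∀ c ∈ {c | (O c).Nonempty}, g ∈ O c := by
    refine Filter.Eventually.and hDr ?_
    rw [eventually_countable_ball hCc]
    intro c hc
    exact residual_of_dense_open (hOopen c) (hOdense c hc)
  have hallD := dense_of_mem_residual hall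
  let η₀ : ℕ → F0 := fun _ => Sum.inl 0
  have hGA : inG 0 (0 + 3) (uu 0 0 0 η₀ η₀) := uu_inG (le_refl 0) η₀ η₀
  have hGB : inG 1 (0 + 3) (uu 1 0 1 η₀ η₀) := uu_inG (le_refl 1) η₀ η₀
  let gA : G := ⟨(0, 0 + 3, uu 0 0 0 η₀ η₀), hGA⟩
  let gB : G := ⟨(1, 0 + 3, uu 1 0 1 η₀ η₀), hGB⟩
  have hAB : gA ≠ gB := by
    intro h
    have : kk gA = kk gB := by rw [h]
    exact absurd this (by change (0 : ℕ) ≠ 1; omega)
  have : Nonempty G := ⟨gA⟩
  obtain ⟨g, hg⟩ := hallD.nonempty
  obtain ⟨g', hg', hg'2⟩ := hallD.inter_open_nonempty {g}ᶜ isOpen_compl_singleton (by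
    by_cases h : gA = g
    · exact ⟨gB, fun h' => hAB (h.trans (mem_singleton_iff.1 h').symm)⟩
    · exact ⟨gA, h⟩)
  have hrange : ∀ g, (g ∈ D ∧ ∀ c ∈ {c | (O c).Nonempty}, g ∈ O c) →
      range (fun n => T₁ n (x1 g)) = {c | (O c).Nonempty} := by
    rintro g ⟨hgD, hgO⟩
    ext c
    constructor
    · rintro ⟨n, rfl⟩
      obtain ⟨K, hK⟩ := hgD.1 n
      exact ⟨g, n, K, hK⟩
    · intro hc
      obtain ⟨n, K, hn⟩ := hgO c hc
      exact ⟨n, hn g (mem_U_self K g)⟩
  refine ⟨g, g', ?_, ?_⟩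
  · intro h
    exact hg' (mem_singleton_iff.2 h.symm)
  · rw [hrange g hg, hrange g' hg'2]

/-! ### Closedness of the graph -/

lemma ultra_bounded {α : Type*} (𝒰 : Ultrafilter α) (u : α → ℕ) (B : ℕ)
    (h : ∀ᶠ x in (𝒰 : Filter α), u x ≤ B) : ∃ s, ∀ᶠ x in (𝒰 : Filter α), u x = s := by
  have h1 : (⋃ s ∈ Iic B, {x | u x = s}) ∈ 𝒰 := by
    have : (⋃ s ∈ Iic B, {x | u x = s}) = {x | u x ≤ B} := by
      ext x
      simp
    rw [this]
    exact h
  rw [Ultrafilter.finite_biUnion_mem_iff (finite_Iic B)] at h1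
  obtain ⟨s, -, hs⟩ := h1
  exact ⟨s, hs⟩

lemma G_proper {α : Type*} (𝒰 : Ultrafilter α) (z : α → G) {ξ θ : ℕ → ℕ → ℕ}
    (h₁ : Tendsto (fun x => x1 (z x)) 𝒰 (𝓝 ξ)) (h₂ : Tendsto (fun x => x2 (z x)) 𝒰 (𝓝 θ)) :
    ∃ g : G, Tendsto z 𝒰 (𝓝 g) := by
  have hp1 : ∀ i, Tendsto (fun x => P false (ee (z x) i)) 𝒰 (𝓝 (ξ i)) := fun i =>
    tendsto_pi_nhds.1 h₁ i
  have hp2 : ∀ i, Tendsto (fun x => P true (ee (z x) (perm (kk (z x)) (ll (z x)) i))) 𝒰
      (𝓝 (θ i)) := fun i => tendsto_pi_nhds.1 h₂ i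
  have e0 : ∀ᶠ x in (𝒰 : Filter α), kk (z x) ≤ θ 0 0 := by
    filter_upwards [eventually_eq_le (hp2 0) 0] with x hx
    have h1 := hx 0 le_rfl
    obtain ⟨hl, -, -, -, hd⟩ := inG_ee (z x)
    rw [perm_apply, if_pos (by omega)] at h1
    rw [← h1]
    exact hd
  have e1 : ∀ᶠ x in (𝒰 : Filter α), ll (z x) ≤ (Finset.range (θ 0 0 + 1)).sup (fun i => ξ i 0) := by
    have e2 : ∀ᶠ x in (𝒰 : Filter α), ∀ i ∈ Finset.range (θ 0 0 + 1),
        P false (ee (z x) i) 0 = ξ i 0 := by
      rw [Filter.eventually_all_finset]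
      intro i _
      filter_upwards [eventually_eq_le (hp1 i) 0] with x hx
      exact hx 0 le_rfl
    filter_upwards [e0, e2] with x hx hx2
    have hmem : kk (z x) ∈ Finset.range (θ 0 0 + 1) := Finset.mem_range.2 (by omega)
    have h1 := hx2 _ hmem
    obtain ⟨-, ⟨μ, hμ, hμ0⟩, -⟩ := inG_ee (z x)
    rw [hμ, P_inr_zero, hμ0, a_mk] at h1
    have h2 := Finset.le_sup (f := fun i => ξ i 0) hmem
    have h3 := Nat.right_le_pair (kk (z x)) (ll (z x))
    omega
  obtain ⟨k, hk⟩ := ultra_bounded 𝒰 _ _ e0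
  obtain ⟨l, hl⟩ := ultra_bounded 𝒰 _ _ e1
  have hlim : ∀ i, ∃ e : F0, Tendsto (fun x => ee (z x) i) 𝒰 (𝓝 e) := by
    intro i
    refine F0_proper 𝒰 (fun x => ee (z x) i) (hp1 i) (θ := θ ((perm k l).symm i)) ?_
    refine (hp2 ((perm k l).symm i)).congr' ?_
    filter_upwards [hk, hl] with x hkx hlx
    rw [hkx, hlx, Equiv.apply_symm_apply]
  choose e he using hlim
  have ht : Tendsto (fun x => ((z x : ℕ × ℕ × (ℕ → F0)))) 𝒰 (𝓝 (k, l, e)) := by
    have t1 : Tendsto (fun x => (z x).1.1) 𝒰 (𝓝 k) := tendsto_nhds_of_eventually_eq hk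
    have t2 : Tendsto (fun x => (z x).1.2.1) 𝒰 (𝓝 l) := tendsto_nhds_of_eventually_eq hl
    have t3 : Tendsto (fun x => (z x).1.2.2) 𝒰 (𝓝 e) := tendsto_pi_nhds.2 he
    exact t1.prodMk_nhds (t2.prodMk_nhds t3)
  have hmem : (k, l, e) ∈ G := isClosed_G.mem_of_tendsto ht (Eventually.of_forall fun x => (z x).2)
  exact ⟨⟨(k, l, e), hmem⟩, tendsto_subtype_rng.2 ht⟩

/-- the graph of the identification -/
def Fset : Set ((ℕ → ℕ → ℕ) × (ℕ → ℕ → ℕ)) := range (fun g : G => (x1 g, x2 g))

lemma isClosed_Fset : IsClosed Fset := by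
  classical
  rw [← closure_subset_iff_isClosed]
  rintro ⟨ξ, θ⟩ hp
  rw [mem_closure_iff_ultrafilter] at hp
  obtain ⟨u, hu, hup⟩ := hp
  have : Nonempty G := by
    obtain ⟨_, g, _⟩ := (u.nonempty_of_mem hu)
    exact ⟨g⟩
  let r : (ℕ → ℕ → ℕ) × (ℕ → ℕ → ℕ) → G := Function.invFun (fun g : G => (x1 g, x2 g))
  have hr : ∀ᶠ p in (u : Filter _), (x1 (r p), x2 (r p)) = p := by
    filter_upwards [hu] with p hp
    exact Function.invFun_eq hp
  have t1 : Tendsto (fun p => x1 (r p)) u (𝓝 ξ) := by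
    have : Tendsto (fun p : (ℕ → ℕ → ℕ) × (ℕ → ℕ → ℕ) => p.1) u (𝓝 ξ) :=
      (continuous_fst.tendsto (ξ, θ)).mono_left hup
    refine this.congr' ?_
    filter_upwards [hr] with p hp
    exact (congrArg Prod.fst hp).symm
  have t2 : Tendsto (fun p => x2 (r p)) u (𝓝 θ) := by
    have : Tendsto (fun p : (ℕ → ℕ → ℕ) × (ℕ → ℕ → ℕ) => p.2) u (𝓝 θ) :=
      (continuous_snd.tendsto (ξ, θ)).mono_left hup
    refine this.congr' ?_
    filter_upwards [hr] with p hp
    exact (congrArg Prod.snd hp).symm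
  obtain ⟨g, hg⟩ := G_proper u r t1 t2
  have e1 : x1 g = ξ := tendsto_nhds_unique ((continuous_x1.tendsto g).comp hg) t1
  have e2 : x2 g = θ := tendsto_nhds_unique ((continuous_x2.tendsto g).comp hg) t2
  exact ⟨g, by rw [← e1, ← e2]⟩

/-! ### The equivalence relation on Baire space -/

/-- coding a bit and a matrix by a point of Baire space -/
def enc (b : ℕ) (ξ : ℕ → ℕ → ℕ) : ℕ → ℕ := fun m =>
  match m with
  | 0 => b
  | m + 1 => ξ (Nat.unpair m).1 (Nat.unpair m).2

/-- the matrix coded by a point of Baire space -/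
def mat (x : ℕ → ℕ) : ℕ → ℕ → ℕ := fun i j => x (Nat.pair i j + 1)

lemma mat_enc (b : ℕ) (ξ : ℕ → ℕ → ℕ) : mat (enc b ξ) = ξ := by
  funext i j
  simp [mat, enc]

lemma enc_zero (b : ℕ) (ξ : ℕ → ℕ → ℕ) : enc b ξ 0 = b := rfl

lemma continuous_enc (b : ℕ) : Continuous (enc b) := by
  rw [continuous_pi_iff]
  intro m
  rcases m with _ | m
  · exact continuous_const
  · exact (continuous_apply (Nat.unpair m).2).comp
      (continuous_apply (A := fun _ : ℕ => ℕ → ℕ) (Nat.unpair m).1)

lemma continuous_mat : Continuous mat := by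
  unfold mat
  fun_prop

lemma eq_of_mat {x y : ℕ → ℕ} (h0 : x 0 = y 0) (h : mat x = mat y) : x = y := by
  funext m
  rcases m with _ | m
  · exact h0
  · have := congrFun (congrFun h (Nat.unpair m).1) (Nat.unpair m).2
    simpa [mat] using this

open Classical in
/-- the invariant that defines the equivalence relation -/
noncomputable def inv (x : ℕ → ℕ) : ℕ × (ℕ → ℕ → ℕ) :=
  if x 0 = 0 then Function.extend x1 (fun g => (1, x2 g)) (fun ξ => (0, ξ)) (mat x)
  else (x 0, mat x)

lemma inv_iff (x y : ℕ → ℕ) : inv x = inv y ↔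
    x = y ∨ ((x 0 = 0 ∧ y 0 = 1) ∧ (mat x, mat y) ∈ Fset) ∨
    ((x 0 = 1 ∧ y 0 = 0) ∧ (mat y, mat x) ∈ Fset) := by
  have key : ∀ ξ : ℕ → ℕ → ℕ,
      (∃ g, x1 g = ξ ∧ Function.extend x1 (fun g => (1, x2 g)) (fun ξ => ((0 : ℕ), ξ)) ξ
        = (1, x2 g)) ∨
      ((∀ g, x1 g ≠ ξ) ∧
        Function.extend x1 (fun g => (1, x2 g)) (fun ξ => ((0 : ℕ), ξ)) ξ = (0, ξ)) := by
    intro ξ
    by_cases h : ∃ g, x1 g = ξ
    · obtain ⟨g, rfl⟩ := h
      left
      exact ⟨g, rfl, x1_injective.extend_apply _ _ _⟩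
    · right
      push Not at h
      refine ⟨h, Function.extend_apply' _ _ _ ?_⟩
      rintro ⟨g, hg⟩
      exact h g hg
  have key2 : ∀ (ξ θ : ℕ → ℕ → ℕ) (n : ℕ), n ≠ 0 →
      (Function.extend x1 (fun g => (1, x2 g)) (fun ξ => ((0 : ℕ), ξ)) ξ = (n, θ) ↔
        (n = 1 ∧ (ξ, θ) ∈ Fset)) := by
    intro ξ θ n hn
    constructor
    · intro h
      rcases key ξ with ⟨g, hg, he⟩ | ⟨_, he⟩
      · rw [he] at h
        have h' : x2 g = θ := congrArg Prod.snd h
        have h'' : 1 = n := congrArg Prod.fst h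
        exact ⟨h''.symm, g, Prod.ext hg h'⟩
      · rw [he] at h
        exact absurd (congrArg Prod.fst h).symm hn
    · rintro ⟨rfl, g, hg⟩
      have h1 : x1 g = ξ := congrArg Prod.fst hg
      have h2 : x2 g = θ := congrArg Prod.snd hg
      rw [← h1, x1_injective.extend_apply, h2]
  constructor
  · intro h
    unfold inv at h
    by_cases hx : x 0 = 0 <;> by_cases hy : y 0 = 0
    · simp only [hx, hy, if_true] at h
      left
      refine eq_of_mat (hx.trans hy.symm) ?_
      rcases key (mat x) with ⟨g, hg, he⟩ | ⟨hn, he⟩ <;>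
        rcases key (mat y) with ⟨g', hg', he'⟩ | ⟨hn', he'⟩
      · rw [he, he'] at h
        have : g = g' := x2_injective (congrArg Prod.snd h)
        rw [← hg, ← hg', this]
      · rw [he, he'] at h
        exact absurd (congrArg Prod.fst h) (by simp)
      · rw [he, he'] at h
        exact absurd (congrArg Prod.fst h) (by simp)
      · rw [he, he'] at h
        exact congrArg Prod.snd h
    · simp only [hx, hy, if_true, if_false] at h
      rw [key2 _ _ _ hy] at h
      exact Or.inr (Or.inl ⟨⟨hx, h.1⟩, h.2⟩)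
    · simp only [hx, hy, if_true, if_false] at h
      rw [eq_comm, key2 _ _ _ hx] at h
      exact Or.inr (Or.inr ⟨⟨h.1, hy⟩, h.2⟩)
    · simp only [hx, hy, if_false] at h
      left
      exact eq_of_mat (congrArg Prod.fst h) (congrArg Prod.snd h)
  · rintro (h | ⟨⟨hx, hy⟩, h⟩ | ⟨⟨hx, hy⟩, h⟩)
    · rw [h]
    · have hy0 : ¬ y 0 = 0 := by omega
      unfold inv
      rw [if_pos hx, if_neg hy0, key2 _ _ _ hy0]
      exact ⟨hy, h⟩
    · have hx0 : ¬ x 0 = 0 := by omega
      unfold inv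
      rw [if_pos hy, if_neg hx0, eq_comm, key2 _ _ _ hx0]
      exact ⟨hx, h⟩

lemma isClosed_inv : IsClosed {p : (ℕ → ℕ) × (ℕ → ℕ) | inv p.1 = inv p.2} := by
  have hc1 : Continuous (fun p : (ℕ → ℕ) × (ℕ → ℕ) => p.1 0) := by fun_prop
  have hc2 : Continuous (fun p : (ℕ → ℕ) × (ℕ → ℕ) => p.2 0) := by fun_prop
  have hm1 : Continuous (fun p : (ℕ → ℕ) × (ℕ → ℕ) => mat p.1) :=
    continuous_mat.comp continuous_fst
  have hm2 : Continuous (fun p : (ℕ → ℕ) × (ℕ → ℕ) => mat p.2) :=
    continuous_mat.comp continuous_snd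
  have z1 : ∀ n, IsClosed {p : (ℕ → ℕ) × (ℕ → ℕ) | p.1 0 = n} := fun n =>
    isClosed_eq hc1 continuous_const
  have z2 : ∀ n, IsClosed {p : (ℕ → ℕ) × (ℕ → ℕ) | p.2 0 = n} := fun n =>
    isClosed_eq hc2 continuous_const
  have e : IsClosed {p : (ℕ → ℕ) × (ℕ → ℕ) | p.1 = p.2} :=
    isClosed_eq continuous_fst continuous_snd
  have f1 : IsClosed {p : (ℕ → ℕ) × (ℕ → ℕ) | (mat p.1, mat p.2) ∈ Fset} :=
    isClosed_Fset.preimage (hm1.prodMk hm2)
  have f2 : IsClosed {p : (ℕ → ℕ) × (ℕ → ℕ) | (mat p.2, mat p.1) ∈ Fset} :=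
    isClosed_Fset.preimage (hm2.prodMk hm1)
  have hset : {p : (ℕ → ℕ) × (ℕ → ℕ) | inv p.1 = inv p.2} =
      {p | p.1 = p.2} ∪
      ((({p | p.1 0 = 0} ∩ {p | p.2 0 = 1}) ∩ {p | (mat p.1, mat p.2) ∈ Fset}) ∪
       (({p | p.1 0 = 1} ∩ {p | p.2 0 = 0}) ∩ {p | (mat p.2, mat p.1) ∈ Fset})) := by
    ext p
    exact inv_iff p.1 p.2
  rw [hset]
  exact e.union ((((z1 0).inter (z2 1)).inter f1).union (((z1 1).inter (z2 0)).inter f2))

lemma Fset_left {ξ ξ' θ : ℕ → ℕ → ℕ} (h : (ξ, θ) ∈ Fset) (h' : (ξ', θ) ∈ Fset) : ξ = ξ' := by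
  obtain ⟨g, hg⟩ := h
  obtain ⟨g', hg'⟩ := h'
  have e1 : x2 g = θ := congrArg Prod.snd hg
  have e2 : x2 g' = θ := congrArg Prod.snd hg'
  have e3 : g = g' := x2_injective (e1.trans e2.symm)
  have e4 : x1 g = ξ := congrArg Prod.fst hg
  have e5 : x1 g' = ξ' := congrArg Prod.fst hg'
  rw [← e4, ← e5, e3]

lemma Fset_right {ξ θ θ' : ℕ → ℕ → ℕ} (h : (ξ, θ) ∈ Fset) (h' : (ξ, θ') ∈ Fset) : θ = θ' := by
  obtain ⟨g, hg⟩ := h
  obtain ⟨g', hg'⟩ := h'
  have e1 : x1 g = ξ := congrArg Prod.fst hg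
  have e2 : x1 g' = ξ := congrArg Prod.fst hg'
  have e3 : g = g' := x1_injective (e1.trans e2.symm)
  have e4 : x2 g = θ := congrArg Prod.snd hg
  have e5 : x2 g' = θ' := congrArg Prod.snd hg'
  rw [← e4, ← e5, e3]

/-- every class has at most two elements -/
lemma classes (x y z : ℕ → ℕ) (h : inv x = inv y) (h' : inv x = inv z) :
    x = y ∨ x = z ∨ y = z := by
  rw [inv_iff] at h h'
  rcases h with h | ⟨⟨hx, hy⟩, h⟩ | ⟨⟨hx, hy⟩, h⟩
  · exact Or.inl h
  · rcases h' with h' | ⟨⟨hx', hz⟩, h'⟩ | ⟨⟨hx', hz⟩, h'⟩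
    · exact Or.inr (Or.inl h')
    · exact Or.inr (Or.inr (eq_of_mat (hy.trans hz.symm) (Fset_right h h')))
    · omega
  · rcases h' with h' | ⟨⟨hx', hz⟩, h'⟩ | ⟨⟨hx', hz⟩, h'⟩
    · exact Or.inr (Or.inl h')
    · omega
    · exact Or.inr (Or.inr (eq_of_mat (hy.trans hz.symm) (Fset_left h h')))

lemma measurable_inv :
    @Measurable (ℕ → ℕ) (ℕ × (ℕ → ℕ → ℕ)) (borel _) (borel _) inv := by
  classical
  let _ : MeasurableSpace G := borel G
  have : BorelSpace G := ⟨rfl⟩
  let _ : MeasurableSpace (ℕ → ℕ → ℕ) := borel _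
  have : BorelSpace (ℕ → ℕ → ℕ) := ⟨rfl⟩
  let _ : MeasurableSpace (ℕ → ℕ) := borel _
  have : BorelSpace (ℕ → ℕ) := ⟨rfl⟩
  let _ : MeasurableSpace (ℕ × (ℕ → ℕ → ℕ)) := borel _
  have : BorelSpace (ℕ × (ℕ → ℕ → ℕ)) := ⟨rfl⟩
  have hemb : MeasurableEmbedding x1 := continuous_x1.measurableEmbedding x1_injective
  have m1 : Measurable (fun g : G => ((1 : ℕ), x2 g)) :=
    (continuous_const.prodMk continuous_x2).measurable
  have m2 : Measurable (fun ξ : ℕ → ℕ → ℕ => ((0 : ℕ), ξ)) :=
    (continuous_const.prodMk continuous_id).measurable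
  have m3 := hemb.measurable_extend m1 m2
  have m4 : Measurable (fun x : ℕ → ℕ => (x 0, mat x)) :=
    ((continuous_apply 0).prodMk continuous_mat).measurable
  have hs : MeasurableSet {x : ℕ → ℕ | x 0 = 0} :=
    (isClosed_eq (continuous_apply 0) continuous_const).measurableSet
  unfold inv
  exact Measurable.ite hs (m3.comp continuous_mat.measurable) m4

/-- There is a closed smooth equivalence relation on Baire space, all of whose classes have at
most two elements, which admits no continuous reduction to the Friedman-Stanley jump of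
equality. -/
theorem result : ∃ E : Setoid (ℕ → ℕ),
    IsClosed {p : (ℕ → ℕ) × (ℕ → ℕ) | E p.1 p.2} ∧
    (∃ (Z : Type) (_ : TopologicalSpace Z) (_ : PolishSpace Z) (g : (ℕ → ℕ) → Z),
      @Measurable (ℕ → ℕ) Z (borel (ℕ → ℕ)) (borel Z) g ∧ ∀ x y, E x y ↔ g x = g y) ∧
    (∀ x y z, E x y → E x z → x = y ∨ x = z ∨ y = z) ∧
    ¬ ∃ f : (ℕ → ℕ) → (ℕ → (ℕ → ℕ)), Continuous f ∧
      ∀ x y, E x y ↔ Set.range (f x) = Set.range (f y) := by
  refine ⟨Setoid.ker inv, isClosed_inv, ?_, classes, ?_⟩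
  · exact ⟨ℕ × (ℕ → ℕ → ℕ), inferInstance, inferInstance, inv, measurable_inv, fun x y => Iff.rfl⟩
  · rintro ⟨f, hf, hred⟩
    have hE : ∀ x y, inv x = inv y ↔ Set.range (f x) = Set.range (f y) := hred
    have hfn : ∀ n, Continuous (fun x => f x n) := fun n => (continuous_apply n).comp hf
    have hrel : ∀ g : G, Set.range (f (enc 0 (x1 g))) = Set.range (f (enc 1 (x2 g))) := by
      intro g
      rw [← hE, inv_iff]
      right
      left
      refine ⟨⟨rfl, rfl⟩, ?_⟩
      rw [mat_enc, mat_enc]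
      exact ⟨g, rfl⟩
    obtain ⟨g, g', hne, hr⟩ := not_separating (T₁ := fun n ξ => f (enc 0 ξ) n)
      (T₂ := fun n θ => f (enc 1 θ) n) (fun n => (hfn n).comp (continuous_enc 0))
      (fun n => (hfn n).comp (continuous_enc 1))
      (fun g n => by
        have : f (enc 0 (x1 g)) n ∈ Set.range (f (enc 1 (x2 g))) := by
          rw [← hrel g]
          exact ⟨n, rfl⟩
        obtain ⟨m, hm⟩ := this
        exact ⟨m, hm.symm⟩)
      (fun g m => by
        have : f (enc 1 (x2 g)) m ∈ Set.range (f (enc 0 (x1 g))) := by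
          rw [hrel g]
          exact ⟨m, rfl⟩
        obtain ⟨n, hn⟩ := this
        exact ⟨n, hn.symm⟩)
    apply hne
    apply x1_injective
    have h1 : inv (enc 0 (x1 g)) = inv (enc 0 (x1 g')) := by
      rw [hE]
      exact hr
    rw [inv_iff] at h1
    rcases h1 with h1 | ⟨⟨-, h1⟩, -⟩ | ⟨⟨h1, -⟩, -⟩
    · rw [← mat_enc 0 (x1 g), h1, mat_enc]
    · exact absurd h1 (by rw [enc_zero]; omega)
    · exact absurd h1 (by rw [enc_zero]; omega)

end Pool.Agent.Results.MP_b0da28_lc.ClosedNotReducible
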